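import Pool.Agent.N699.SB.Pal

/-!
# The equation `a p - b q = c` for almost all palindromes `c`

For almost all palindromes `c` (in an arbitrary base; possibly shifted and dilated), and, more generally, for almost
all integers `c` whose digits depend on their mirror images, the number of the solutions of `a p - b q = c` in primes
`p, q` with `q ≤ N` is the one predicted by Hardy and Littlewood, for ALL coefficients `a, b ≤ Q` at the same time for
which `a, b, c` are pairwise relatively prime and not all odd. There are only about `√N` palindromes up to `N`; the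
right side `c` is as large as `a p` and `b q`.

Method: the L² norm over the bad frequencies of `Λ - λ_z` along the multiples of `a` (a major and minor arc analysis
of the exponential sum at `a α`), together with the decay of the characteristic function of a random palindrome
(`Pool.Agent.TH872.Mir.char_decay`, starting files), shows that for ARBITRARY coefficients `G` the average over `c`
of `|∑ G n (Λ - λ_z) ((n + c) / a)|` is small. It is applied twice: for `p = (b q + c) / a` and for
`q = (a p - c) / b`. The main term is evaluated with `Pool.Agent.Y820.LF` (starting files).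
-/

set_option autoImplicit false

namespace Pool.Agent.Results.MP_bf63dc_nt.PalindromicConstants

open Finset

/-- `a, b, c` are positive, pairwise relatively prime and not all odd. -/
def Ok (a b c : ℕ) : Prop :=
  1 ≤ a ∧ 1 ≤ b ∧ 1 ≤ c ∧ Nat.Coprime a b ∧ Nat.Coprime a c ∧ Nat.Coprime b c ∧ 2 ∣ a * b * c

open Classical in
/-- The number of the primes `q ≤ N` for which `a p - b q = c` for a prime `p`. -/
noncomputable def solutions (a b c N : ℕ) : ℕ := ((Icc 1 N).filter fun q => q.Prime ∧ ∃ p, p.Prime ∧ a * p = b * q + c).card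

/-- The partial products of the singular series: the factor of a prime `p ≤ z` is `(1 - 1 / p) / (1 - 1 / p) ^ 2` if `p`
divides `a b c`, and `(1 - 2 / p) / (1 - 1 / p) ^ 2` otherwise. -/
noncomputable def sing (a b c z : ℕ) : ℝ :=
  ∏ p ∈ (Icc 1 z).filter Nat.Prime, (1 - (if p ∣ a * b * c then 1 else 2) / (p : ℝ)) / (1 - 1 / (p : ℝ)) ^ 2

/-- The formula of Hardy and Littlewood for the equation `a p - b q = c`: the singular series converges to some `S > 0`,
the number of the solutions with `q ≤ N`, weighted with the von Mangoldt function, is `S N / a`, with an error of at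
most `N / log ^ U N`, and the number of the solutions in primes with `q ≤ N` is `S N / (a log ^ 2 N)`, with a relative
error of at most `ε`. -/
def Formula (ε : ℝ) (U N a b c : ℕ) : Prop :=
  ∃ S : ℝ, 0 < S ∧ Filter.Tendsto (sing a b c) Filter.atTop (nhds S) ∧
    |∑ q ∈ Icc 1 N, (if a ∣ b * q + c then ArithmeticFunction.vonMangoldt q * ArithmeticFunction.vonMangoldt ((b * q + c) / a) else 0) -
      S * (N / a)| ≤ N / Real.log N ^ U ∧
    |(solutions a b c N : ℝ) - S * (N / a / Real.log N ^ 2)| ≤ ε * (S * (N / a / Real.log N ^ 2))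

/-- The formula holds for the right side `c` and ALL coefficients `a, b ≤ Q` for which `a, b, c` are positive, pairwise
relatively prime and not all odd. -/
def AllCoefficients (ε : ℝ) (U Q N c : ℕ) : Prop := ∀ a b : ℕ, a ≤ Q → b ≤ Q → Ok a b c → Formula ε U N a b c

open Classical in
/-- The palindromes with exactly `k` digits in base `g`: the integers `v` with `g ^ (k - 1) ≤ v < g ^ k`, whose digit
number `j` (which is `v / g ^ j % g`) is equal to the digit number `k - 1 - j`, for all `j < k`. -/
noncomputable def palindromes (g k : ℕ) : Finset ℕ :=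
  (range (g ^ k)).filter fun v => g ^ (k - 1) ≤ v ∧ ∀ j < k, v / g ^ j % g = v / g ^ (k - 1 - j) % g

/-- The numbers `w j a`, `j < k / 2`, are distributions of a pair `a` of digits in base `g`, and, for
`j ≥ 1`, two independent copies of the pair differ in BOTH digits with a probability of at least `η`. -/
structure Pairs (g k : ℕ) (η : ℝ) (w : ℕ → ℕ × ℕ → ℝ) : Prop where
  nonneg : ∀ j < k / 2, ∀ a, 0 ≤ w j a
  sum : ∀ j < k / 2, ∑ a ∈ range g ×ˢ range g, w j a = 1
  differ : ∀ j < k / 2, 1 ≤ j → η ≤ ∑ a ∈ range g ×ˢ range g, ∑ a' ∈ range g ×ˢ range g,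
    if a.1 ≠ a'.1 ∧ a.2 ≠ a'.2 then w j a * w j a' else 0

/-- The probability of the integer `v < g ^ k`, if for `j < k / 2` the pair formed by its digits number `j` and `k - 1 - j`
in base `g` is equal to `a` with probability `w j a`, if, for odd `k`, its middle digit is equal to `a` with
probability `u a`, and if the pairs and the middle digit are independent of each other. -/
noncomputable def weight (g k : ℕ) (w : ℕ → ℕ × ℕ → ℝ) (u : ℕ → ℝ) (v : ℕ) : ℝ :=
  (∏ j ∈ range (k / 2), w j (v / g ^ j % g, v / g ^ (k - 1 - j) % g)) * (if k % 2 = 1 then u (v / g ^ (k / 2) % g) else 1)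

open Classical in
/-- Let a base `g ≥ 2`, a factor `κ ≥ 1`, `Q ≥ 1`, `B`, `U`, `η > 0` and `ε > 0` be fixed. Let `N` be large, let the number `k`
of digits satisfy `N / B ≤ g ^ k ≤ B N`, and let `0 ≤ c₀ ≤ B N` be an arbitrary integer.

(1) Let `v < g ^ k` be a random integer such that the pairs formed by its digits number `j` and `k - 1 - j` in base `g` are
independent of each other for different `j`. Inside of a pair the digits may depend on each other in an arbitrary way;
the distributions of the pairs are arbitrary, only two independent copies of a pair (with `j ≥ 1`) should differ in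
both digits with a probability of at least `η`. Then, with a probability of at least `1 - 1 / log ^ U N`, the number
`c = c₀ + κ v` has the following property: for ALL `a, b ≤ Q` for which `a, b, c` are positive, pairwise relatively prime
and not all odd, the formula of Hardy and Littlewood holds for the number of the prime solutions of `a p - b q = c`
with `q ≤ N`.

(2) In particular this holds for all the palindromes `v` with exactly `k` digits in base `g`, with the exception of a
proportion of at most `1 / log ^ U N` of these palindromes. -/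
theorem result (g : ℕ) (hg : 2 ≤ g) (κ : ℕ) (hκ : 1 ≤ κ) (Q B U : ℕ) (hQ : 1 ≤ Q) (η ε : ℝ) (hη : 0 < η) (hε : 0 < ε) :
    ∃ N₀ : ℕ, ∀ N, N₀ ≤ N → ∀ k : ℕ, g ^ k ≤ B * N → N ≤ B * g ^ k → ∀ c₀ : ℕ, c₀ ≤ B * N →
      (∀ (w : ℕ → ℕ × ℕ → ℝ) (u : ℕ → ℝ), Pairs g k η w → (∀ a, 0 ≤ u a) → ∑ a ∈ range g, u a = 1 →
        ∑ v ∈ range (g ^ k), (if AllCoefficients ε U Q N (c₀ + κ * v) then 0 else weight g k w u v) ≤ 1 / Real.log N ^ U) ∧
      (((palindromes g k).filter fun v => ¬ AllCoefficients ε U Q N (c₀ + κ * v)).card : ℝ) ≤
        ((palindromes g k).card : ℝ) / Real.log N ^ U := by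
  have hg0 : (0 : ℝ) < g := by exact_mod_cast (by omega : 0 < g)
  obtain ⟨N1, h1⟩ := Pool.Agent.N699.SB.core g B hg η hη κ hκ Q U hQ ε hε
  obtain ⟨N2, h2⟩ := Pool.Agent.N699.SB.core g B hg (1 / (g : ℝ) ^ 2) (by positivity) κ hκ Q U hQ ε hε
  refine ⟨N1 + N2 + B * g + 1, fun N hN k hk1 hk2 c₀ hc₀ => ⟨?_, ?_⟩⟩
  · intro w u hw hu0 hu1
    have h := h1 N (by omega) k w u hk1 hk2 ⟨hw.nonneg, hw.sum, hw.differ⟩ hu0 hu1 c₀ hc₀
    refine le_trans (le_of_eq ?_) h
    apply sum_congr rfl
    intro v _
    by_cases hH : AllCoefficients ε U Q N (c₀ + κ * v)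
    · have hH' : ¬ ¬ Pool.Agent.N699.SB.AllEq ε U Q N (c₀ + κ * v) := not_not.2 hH
      rw [if_pos hH, if_neg hH']
    · have hH' : ¬ Pool.Agent.N699.SB.AllEq ε U Q N (c₀ + κ * v) := hH
      rw [if_neg hH, if_pos hH']
      rfl
  · have hk3 : 2 ≤ k := by
      by_contra hcon
      have h3 : g ^ k ≤ g ^ 1 := Nat.pow_le_pow_right (by omega) (by omega)
      rw [pow_one] at h3
      have h4 : B * g ^ k ≤ B * g := Nat.mul_le_mul_left _ h3
      omega
    have hw0 := Pool.Agent.TH872.Mir.w0_mirr g (k / 2) hg
    have h := h2 N (by omega) k (Pool.Agent.TH872.Mir.w0 g) (fun _ => 1 / (g : ℝ)) hk1 hk2 hw0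
      (fun _ => by positivity) (by rw [sum_const, card_range, nsmul_eq_mul, mul_one_div, div_self hg0.ne']) c₀ hc₀
    have h5 := Pool.Agent.N699.SB.pals_one g k hg hk3 (fun v => ¬ AllCoefficients ε U Q N (c₀ + κ * v)) (1 / Real.log N ^ U) (by
      refine le_trans (le_of_eq ?_) h
      apply sum_congr rfl
      intro v _
      by_cases hH : AllCoefficients ε U Q N (c₀ + κ * v)
      · have hH' : ¬ ¬ Pool.Agent.N699.SB.AllEq ε U Q N (c₀ + κ * v) := not_not.2 hH
        rw [if_neg (not_not.2 hH), if_neg hH']
      · have hH' : ¬ Pool.Agent.N699.SB.AllEq ε U Q N (c₀ + κ * v) := hH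
        rw [if_pos hH, if_pos hH'])
    have h6 : palindromes g k = Pool.Agent.TH872.Mir.Pals g k := by
      ext v
      unfold palindromes Pool.Agent.TH872.Mir.Pals
      rw [mem_filter, mem_filter, mem_range]
      unfold Pool.Agent.TH872.Mir.IsPal
      exact ⟨fun h => ⟨h.1, h.2.1, h.1, h.2.2⟩, fun h => ⟨h.1, h.2.1, h.2.2.2⟩⟩
    simp only [h6]
    rw [mul_one_div] at h5
    convert h5

end Pool.Agent.Results.MP_bf63dc_nt.PalindromicConstants
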